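import Pool.Agent.R87.ZFProb

/-!
# The zero forcing threshold of a graph with a clique on `k` vertices can be `o(sqrt(k/n))`
-/

set_option autoImplicit false

namespace Pool.Agent.Results.MP_4451bf_co.ThresholdTooSmall

open Pool.Agent.R87.ZF

/-- For every `c > 0` there are a finite graph `G` and a number `k` with `1 ≤ k ≤ |V(G)|` such that
`G` contains a clique on `k` vertices and the threshold probability of `G` (it exists) is
smaller than `c * sqrt (k / |V(G)|)`. -/
theorem result : ∀ c : ℝ, 0 < c → ∃ (V : Type) (_ : Fintype V) (G : SimpleGraph V) (k : ℕ),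
    1 ≤ k ∧ k ≤ Fintype.card V ∧ (∃ s : Finset V, G.IsNClique k s) ∧
    (∃ p : ℝ, IsThreshold G p) ∧
    ∀ p : ℝ, IsThreshold G p → p < c * Real.sqrt ((k : ℝ) / (Fintype.card V : ℝ)) := by
  intro c hc
  obtain ⟨m, h, k, hk, hkn, hp⟩ := main c hc
  refine ⟨BV m (2 * h) k, inferInstance, brick m (2 * h) k, k, hk, hkn, ⟨_, clique (2 * h)⟩, ?_, hp⟩
  apply exists_threshold
  have : 0 < Fintype.card (BV m (2 * h) k) := by omega
  exact Fintype.card_pos_iff.1 this

end Pool.Agent.Results.MP_4451bf_co.ThresholdTooSmall
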